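import Pool.Agent.N35.HL.Fin
import Pool.Agent.KLev.Halving
import Pool.Agent.KLev.Final

/-!
# Halving lines: `f n ≥ n ^ (1 + 1 / (log log n) ^ 4)`

`Line`, `GeneralPosition`, `IsBisector` and `f` are defined in `Pool/Agent/KLev/Halving.lean`
(namespace `KLev.Halving`):

* `Line a b c = {p | a * p.1 + b * p.2 = c}`,
* `GeneralPosition P`: no three distinct points of `P` on a common line,
* `IsBisector P L`: `L` is a line through two distinct points of `P` with exactly
  `|P| / 2 - 1` points of `P` on each open side,
* `f n`: the maximum of the number of bisectors over all `n`-point sets in general position.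

The theorem improves the bound `n ^ (1 + exp (-3 √(log log n)))` of `NearPolynomial.lean`. The
new part of the proof is in `Pool/Agent/N35/HL`: the replicated bundles are combined along
mirrored wedge slots with exactly rounded rational slopes, so that the loss in the exponent per
level of the recursion is polynomial in the number of levels and not exponential.
-/

namespace Pool.Agent.Results.MP_e17eac_co.LogLogPower

open Filter KLev

/-- All large even `n` satisfy `f n ≥ n ^ (1 + 1 / (log log n) ^ 4)`. -/
theorem result : ∀ᶠ n : ℕ in atTop, Even n →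
    (n : ℝ) ^ (1 + 1 / (Real.log (Real.log n)) ^ 4) ≤ (Halving.f n : ℝ) := by
  obtain ⟨a, ha⟩ := (Pool.Agent.N35.HL.finalP 1).exists_forall_of_atTop
  filter_upwards [eventually_ge_atTop (2 * a + 2)] with n hn heven
  obtain ⟨m, hm⟩ := heven
  obtain ⟨N, E, P, hH, hN, hE⟩ := ha m (by omega)
  have h1 := hH.le_f hN
  have e : 2 * m = n := by omega
  rw [e] at h1
  have h2 : (E : ℝ) ≤ Halving.f n := by exact_mod_cast h1
  have hnm : (n : ℝ) = 2 * m := by rw [← e]; push_cast; ring
  have hm0 : (0 : ℝ) ≤ m := Nat.cast_nonneg _
  have h3 := hE n (by linarith) (by linarith)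
  rw [one_mul] at h3
  exact h3.trans h2

end Pool.Agent.Results.MP_e17eac_co.LogLogPower
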