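import Pool.Agent.N378.SK.Main3
import Pool.Agent.N378.SK.L_LOV
import Pool.Agent.N378.SK.L_LONG
import Pool.Agent.N378.SK.L_GP
import Pool.Agent.N378.SK.L_MEAS
import Pool.Agent.N378.SK.L_MEAS2
import Pool.Agent.N378.SK.L_ORD
import Pool.Agent.N378.SK.L_PAIR
import Pool.Agent.N378.SK.L_GPI
import Pool.Agent.N378.SK.L_PT
import Pool.Agent.N378.SK.L_W
import Pool.Agent.N378.SK.L_FLAT
import Pool.Agent.N378.SK.L_SH2
import Pool.Agent.N378.SK.Fin2
import Pool.Agent.N378.SK.L_FLAT3
import Pool.Agent.N378.SK.Sh3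
import Pool.Agent.N378.SK.L_SQ
import Pool.Agent.N378.SK.L_COV
import Pool.Agent.N378.SK.L_ONE
import Pool.Agent.N378.SK.L_DY
import Pool.Agent.N378.SK.L_FIN3
import Pool.Agent.N378.SK.L_BIS

set_option autoImplicit false

/-!
# Halving lines of randomly perturbed point sets (MP_e17eac_co)

Let `p` be an arbitrary configuration of `n` points such that the squares of side `2 s` around them
lie in `[-1, 1]²`, and move every point independently to a uniform random point of its square.  The
expected number of directed `k`-edges (ordered pairs of points with exactly `k` points strictly to the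
left of the directed line) is at most
`32 n^(2/3) (k+1)^(1/3) / s^(1/3)` and at most `40 n + 908 (n (k+1))^(1/2) / s^(1/4)`;
the expected number of halving lines is at most `400 n / s^(1/4)`.  This is smaller than Dey's bound
`O(n^(4/3))` as soon as `s` is much larger than `n^(-4/3)`.

Proof.  For a fixed slope `m` the expected number of pairs of slope `m` in the `k`-level is expressed
by the densities of `v - m u`; the `k`-th order statistic has total mass one, so the pairs of a set
`P` at distance at most `T` contribute at most `(1/s) T^(1/2)` times the square root of the total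
length of the pairs whose strips of slope `m` meet.  Integration over `m` and Cauchy-Schwarz: at most
`24 (|P| T / s)^(1/2)` edges.  Lovász' lemma: at most `8 (k+1)/T` edges of length `≥ T`, and at most
`128 (k+1)` edges of length about `T` in a square of side `16 T`.  Points with few neighbours are
treated by the first bound, the others are covered by few squares.
-/

namespace Pool.Agent.Results.MP_e17eac_co.SmoothedHalvingLines

open MeasureTheory Pool.Agent.N378.SK
open scoped ENNReal

theorem result (n : ℕ) (p : Fin n → ℝ × ℝ) (s : ℝ) (hn : 0 < n) (hs : 0 < s)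
    (hp : ∀ i, Metric.closedBall (p i) s ⊆ Set.Icc (-1 : ℝ) 1 ×ˢ Set.Icc (-1 : ℝ) 1) :
    (∀ k : ℕ, ∫⁻ x, (kEdges x k : ℝ≥0∞) ∂(Measure.pi fun i => unif (p i) s) ≤
      ENNReal.ofReal (32 * (n : ℝ) ^ (2 / 3 : ℝ) * (k + 1 : ℝ) ^ (1 / 3 : ℝ) / s ^ (1 / 3 : ℝ))) ∧
    (∀ k : ℕ, ∫⁻ x, (kEdges x k : ℝ≥0∞) ∂(Measure.pi fun i => unif (p i) s) ≤
      ENNReal.ofReal (40 * n + 908 * (Real.sqrt (n * (k + 1)) / s ^ (1 / 4 : ℝ)))) ∧
    (Even n → ∫⁻ x, (bisectors x : ℝ≥0∞) ∂(Measure.pi fun i => unif (p i) s) ≤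
      ENNReal.ofReal (400 * n / s ^ (1 / 4 : ℝ))) := by
  have hGPI : S_GPI := t_GPI (t_ORD t_MEAS2) t_MEAS2
  have hFLAT : S_FLAT := t_FLAT (t_PAIR t_MEAS2) t_MEAS2 hGPI t_PT t_W
  have hSH2 : S_SH2 := t_SH2 hFLAT t_MEAS t_GP
  have hFLAT3 : S_FLAT3 := t_FLAT3 (t_PAIR t_MEAS2) t_MEAS2 hGPI
  have hSH3 : S_SH3 := sh3 hFLAT3 t_MEAS
  have hLONG : S_LONG := t_LONG t_LOV
  have hONE : S_ONE := t_ONE hSH3 (t_SQ t_LOV) t_COV t_GP
  have hDY : S_DY := t_DY hONE hSH2 t_MEAS
  have hF3 : S_FIN3 := t_FIN3 hLONG hDY t_GP hSH2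
  exact ⟨fun k => fin2 hLONG hSH2 t_GP n p s k hn hs hp, fun k => hF3 n p s k hn hs hp,
    fun he => main_bis3 hF3 t_BIS n hn he p s hs hp⟩

end Pool.Agent.Results.MP_e17eac_co.SmoothedHalvingLines
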